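import Pool.Agent.U81.BN.Loci

/-!
# MP_54820f_ag, Q1: negative answer

For all `r ≥ 3`, `d ≥ 2 r` and `g > C(d - r + 1, 2)` the locus `M^r_{g,d}` is not empty and is
contained in `M²_{g,e}` for `e = d - 2 r + 4`, and all the conditions of Q1 hold. For every `g ≥ 7`
this includes `r = 3`, `d = 6`, `e = 4`.
-/

set_option autoImplicit false

namespace Pool.Agent.Results.MP_54820f_ag.NetsInLargeGenus

open Pool.Agent.U81.BN

/-- For `r ≥ 3`, `d ≥ 2 r`, `g > C(d - r + 1, 2)` and `e = d - 2 r + 4`: `d, e ≤ g - 1`,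
`ρ(g, r, d) < 0`, `ρ(g, 2, e) < 0`, `e < d - 2 r + 2 + ⌊(r + 3) / 2⌋`, and
`∅ ≠ M^r_{g,d} ⊆ M²_{g,e}`. -/
theorem result (r d g : ℕ) (hr : 3 ≤ r) (hd : 2 * r ≤ d) (hg : (d - r + 1).choose 2 < g) :
    d ≤ g - 1 ∧ d - 2 * r + 4 ≤ g - 1 ∧ rho g r d < 0 ∧ rho g 2 (d - 2 * r + 4 : ℕ) < 0 ∧
      d - 2 * r + 4 < d - 2 * r + 2 + (r + 3) / 2 ∧
      LocusNonempty g r d ∧ LocusContained g r d 2 (d - 2 * r + 4) := by
  obtain ⟨h1, h2, h3, h4, h5⟩ := numbers (s := 2) le_rfl (by omega) hd hg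
  have e : d - 2 * (r - 2) = d - 2 * r + 4 := by omega
  rw [e] at h3 h5
  refine ⟨h2, h3, h4, ?_, by omega, nonempty_general h1 hd, ?_⟩
  · exact h5
  · have := contained_general (s := 2) (by omega) (by omega) hd hg
    rwa [e] at this

end Pool.Agent.Results.MP_54820f_ag.NetsInLargeGenus
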